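import Mathlib

set_option autoImplicit false

open Filter Topology

namespace Pool.Agent.Results.MP_2e9c83_an.UniversalRSEisASE

universe u

section Definitions

variable (𝕂 : Type*) [RCLike 𝕂]

/-- `T` is absolutely strongly exposing. -/
def IsASE {X Y : Type*} [NormedAddCommGroup X] [NormedSpace 𝕂 X] [NormedAddCommGroup Y]
    [NormedSpace 𝕂 Y] (T : X →L[𝕂] Y) : Prop :=
  ∃ x₀ : X, ‖x₀‖ = 1 ∧ ∀ x : ℕ → X, (∀ n, ‖x n‖ ≤ 1) →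
    Tendsto (fun n => ‖T (x n)‖) atTop (𝓝 ‖T‖) →
    ∃ (σ : ℕ → ℕ) (c : 𝕂), StrictMono σ ∧ ‖c‖ = 1 ∧
      Tendsto (fun n => x (σ n)) atTop (𝓝 (c • x₀))

/-- `T` is range strongly exposing. -/
def IsRSE {X Y : Type*} [NormedAddCommGroup X] [NormedSpace 𝕂 X] [NormedAddCommGroup Y]
    [NormedSpace 𝕂 Y] (T : X →L[𝕂] Y) : Prop :=
  ∃ x₀ : X, ‖x₀‖ = 1 ∧ ∀ x : ℕ → X, (∀ n, ‖x n‖ ≤ 1) →
    Tendsto (fun n => ‖T (x n)‖) atTop (𝓝 ‖T‖) →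
    ∃ (σ : ℕ → ℕ) (c : 𝕂), StrictMono σ ∧ ‖c‖ = 1 ∧
      Tendsto (fun n => T (x (σ n))) atTop (𝓝 (c • T x₀))

/-- The pair `(X, Y)` has the BPBp-ASE. -/
def BPBpASE (X Y : Type*) [NormedAddCommGroup X] [NormedSpace 𝕂 X] [NormedAddCommGroup Y]
    [NormedSpace 𝕂 Y] : Prop :=
  ∀ ε : ℝ, 0 < ε → ∃ η : ℝ, 0 < η ∧ η < ε ∧
    ∀ (T : X →L[𝕂] Y) (x : X), ‖T‖ = 1 → ‖x‖ = 1 → 1 - η < ‖T x‖ →
      ∃ (S : X →L[𝕂] Y) (x₀ : X), IsASE 𝕂 S ∧ ‖x₀‖ = 1 ∧ ‖S‖ = 1 ∧ ‖S x₀‖ = 1 ∧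
        ‖S - T‖ < ε ∧ ‖x - x₀‖ < ε

/-- The pair `(X, Y)` has the BPBp-RSE. -/
def BPBpRSE (X Y : Type*) [NormedAddCommGroup X] [NormedSpace 𝕂 X] [NormedAddCommGroup Y]
    [NormedSpace 𝕂 Y] : Prop :=
  ∀ ε : ℝ, 0 < ε → ∃ η : ℝ, 0 < η ∧ η < ε ∧
    ∀ (T : X →L[𝕂] Y) (x : X), ‖T‖ = 1 → ‖x‖ = 1 → 1 - η < ‖T x‖ →
      ∃ (S : X →L[𝕂] Y) (x₀ : X), IsRSE 𝕂 S ∧ ‖x₀‖ = 1 ∧ ‖S‖ = 1 ∧ ‖S x₀‖ = 1 ∧
        ‖S - T‖ < ε ∧ ‖x - x₀‖ < ε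

/-- `X` is a universal BPBp-ASE domain. -/
def IsUniversalASE (X : Type u) [NormedAddCommGroup X] [NormedSpace 𝕂 X] : Prop :=
  ∀ (Z : Type u) [NormedAddCommGroup Z] [NormedSpace 𝕂 Z] [CompleteSpace Z], BPBpASE 𝕂 X Z

/-- `X` is a universal BPBp-RSE domain. -/
def IsUniversalRSE (X : Type u) [NormedAddCommGroup X] [NormedSpace 𝕂 X] : Prop :=
  ∀ (Z : Type u) [NormedAddCommGroup Z] [NormedSpace 𝕂 Z] [CompleteSpace Z], BPBpRSE 𝕂 X Z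

end Definitions

section Proof

variable {𝕂 : Type*} [RCLike 𝕂]
variable {X Z : Type u} [NormedAddCommGroup X] [NormedSpace 𝕂 X] [NormedAddCommGroup Z]
  [NormedSpace 𝕂 Z]

/-- a range strongly exposing monomorphism is absolutely strongly exposing -/
lemma IsRSE.isASE_of_bddBelow {W : Type*} [NormedAddCommGroup W] [NormedSpace 𝕂 W]
    {S : X →L[𝕂] W} (hS : IsRSE 𝕂 S) (c : ℝ) (hc : 0 < c) (hb : ∀ x, c * ‖x‖ ≤ ‖S x‖) :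
    IsASE 𝕂 S := by
  obtain ⟨x₀, h0, h⟩ := hS
  refine ⟨x₀, h0, fun x hx hlim => ?_⟩
  obtain ⟨σ, d, hσ, hd, hT⟩ := h x hx hlim
  refine ⟨σ, d, hσ, hd, ?_⟩
  rw [tendsto_iff_norm_sub_tendsto_zero] at hT ⊢
  have h1 : Tendsto (fun n => c⁻¹ * ‖S (x (σ n)) - d • S x₀‖) atTop (𝓝 0) := by
    simpa using hT.const_mul c⁻¹
  refine squeeze_zero (fun _ => norm_nonneg _) (fun n => ?_) h1
  have h2 := hb (x (σ n) - d • x₀)
  rw [map_sub, map_smul] at h2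
  rw [inv_mul_eq_div, le_div_iff₀ hc, mul_comm]
  exact h2

/-- The auxiliary operator `(T, δ I) / (1 + δ)` into the `ℓ₁`-sum. -/
noncomputable def aux (T : X →L[𝕂] Z) (δ : ℝ) : X →L[𝕂] WithLp 1 (Z × X) :=
  (((WithLp.prodContinuousLinearEquiv 1 𝕂 Z X).symm : (Z × X) →L[𝕂] WithLp 1 (Z × X)).comp
    ((((1 + δ : ℝ) : 𝕂)⁻¹) • T.prod ((δ : 𝕂) • ContinuousLinearMap.id 𝕂 X)))

lemma aux_fst (T : X →L[𝕂] Z) (δ : ℝ) (x : X) :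
    (aux T δ x).fst = ((1 + δ : ℝ) : 𝕂)⁻¹ • T x := rfl

lemma aux_snd (T : X →L[𝕂] Z) (δ : ℝ) (x : X) :
    (aux T δ x).snd = ((1 + δ : ℝ) : 𝕂)⁻¹ • (δ : 𝕂) • x := rfl

lemma norm_inv_add (δ : ℝ) (hδ : 0 < δ) : ‖((1 + δ : ℝ) : 𝕂)⁻¹‖ = (1 + δ)⁻¹ := by
  rw [norm_inv, RCLike.norm_ofReal, abs_of_pos (by linarith)]

lemma aux_norm_apply (T : X →L[𝕂] Z) (δ : ℝ) (hδ : 0 < δ) (x : X) :
    ‖aux T δ x‖ = (1 + δ)⁻¹ * (‖T x‖ + δ * ‖x‖) := by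
  rw [WithLp.prod_norm_eq_of_L1, aux_fst, aux_snd, norm_smul, norm_smul, norm_smul,
    norm_inv_add δ hδ, RCLike.norm_ofReal, abs_of_pos hδ]
  ring

lemma aux_norm (T : X →L[𝕂] Z) (hT : ‖T‖ = 1) (δ : ℝ) (hδ : 0 < δ) : ‖aux T δ‖ = 1 := by
  apply le_antisymm
  · apply ContinuousLinearMap.opNorm_le_bound _ zero_le_one
    intro x
    rw [aux_norm_apply T δ hδ, inv_mul_eq_div, div_le_iff₀ (by linarith)]
    have := T.le_opNorm x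
    rw [hT] at this
    nlinarith
  · -- lower bound via `‖T‖ ≤ (1+δ)‖aux‖ - δ`
    by_contra hlt
    push Not at hlt
    set A := ‖aux T δ‖
    have hA0 : 0 ≤ A := norm_nonneg _
    have h1 : ∀ x : X, ‖T x‖ ≤ ((1 + δ) * A - δ) * ‖x‖ := by
      intro x
      have := (aux T δ).le_opNorm x
      rw [aux_norm_apply T δ hδ, inv_mul_eq_div, div_le_iff₀ (by linarith)] at this
      nlinarith
    have h2 : ‖T‖ ≤ max ((1 + δ) * A - δ) 0 := by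
      apply ContinuousLinearMap.opNorm_le_bound _ (le_max_right _ _)
      intro x
      refine (h1 x).trans ?_
      gcongr
      exact le_max_left _ _
    have h3 : max ((1 + δ) * A - δ) 0 < 1 := by
      apply max_lt _ one_pos
      nlinarith
    rw [hT] at h2
    linarith

end Proof

/-- **Theorem.** Every universal BPBp-RSE domain is a universal BPBp-ASE domain. -/
theorem result (𝕂 : Type*) [RCLike 𝕂] (X : Type u) [NormedAddCommGroup X] [NormedSpace 𝕂 X]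
    [CompleteSpace X] (h : IsUniversalRSE 𝕂 X) : IsUniversalASE 𝕂 X := by
  intro Z _ _ _ ε hε
  set δ : ℝ := min ε 1 / 8 with hδdef
  have hδ : 0 < δ := by positivity
  have hδ1 : δ ≤ 1 / 8 := by
    rw [hδdef]
    have := min_le_right ε 1
    linarith
  have hδε : 8 * δ ≤ ε := by
    rw [hδdef]
    have := min_le_left ε 1
    linarith
  obtain ⟨η, hη, hηδ, H⟩ := h (WithLp 1 (Z × X)) (δ / 4) (by positivity)
  refine ⟨η, hη, by linarith, fun T x hT hx hTx => ?_⟩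
  obtain ⟨S, x₀, hSR, hx₀, hS, hSx₀, hST, hxx₀⟩ := H (aux T δ) x (aux_norm T hT δ hδ) hx (by
    rw [aux_norm_apply T δ hδ, hx, inv_mul_eq_div, lt_div_iff₀ (by linarith)]
    nlinarith)
  -- componentwise estimates
  have hdiff : ∀ y : X, ‖(S y).fst - ((1 + δ : ℝ) : 𝕂)⁻¹ • T y‖ +
      ‖(S y).snd - ((1 + δ : ℝ) : 𝕂)⁻¹ • (δ : 𝕂) • y‖ ≤ δ / 4 * ‖y‖ := by
    intro y
    have h1 := (S - aux T δ).le_opNorm y
    have h2 : ‖(S - aux T δ) y‖ = ‖(S y).fst - ((1 + δ : ℝ) : 𝕂)⁻¹ • T y‖ +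
      ‖(S y).snd - ((1 + δ : ℝ) : 𝕂)⁻¹ • (δ : 𝕂) • y‖ := by
      rw [WithLp.prod_norm_eq_of_L1]; rfl
    rw [← h2]
    exact h1.trans (by gcongr)
  have hinv1 : (1 + δ)⁻¹ ≤ 1 := inv_le_one_of_one_le₀ (by linarith)
  have hinv2 : 1 - δ ≤ (1 + δ)⁻¹ := by
    rw [← one_div, le_div_iff₀ (by linarith)]
    nlinarith
  have hinvpos : 0 < (1 + δ)⁻¹ := by positivity
  -- `S` is bounded below
  have hbelow : ∀ y : X, δ / 4 * ‖y‖ ≤ ‖S y‖ := by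
    intro y
    have h1 := hdiff y
    have h2 : ‖((1 + δ : ℝ) : 𝕂)⁻¹ • (δ : 𝕂) • y‖ = (1 + δ)⁻¹ * (δ * ‖y‖) := by
      rw [norm_smul, norm_smul, norm_inv_add δ hδ, RCLike.norm_ofReal, abs_of_pos hδ]
    have h3 : ‖((1 + δ : ℝ) : 𝕂)⁻¹ • (δ : 𝕂) • y‖ ≤ ‖(S y).snd‖ +
        ‖(S y).snd - ((1 + δ : ℝ) : 𝕂)⁻¹ • (δ : 𝕂) • y‖ := by
      have := norm_sub_le (S y).snd ((S y).snd - ((1 + δ : ℝ) : 𝕂)⁻¹ • (δ : 𝕂) • y)
      rwa [sub_sub_cancel] at this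
    have h4 : ‖(S y).snd‖ ≤ ‖S y‖ := by
      rw [WithLp.prod_norm_eq_of_L1 (S y)]
      have := norm_nonneg (S y).fst
      linarith
    have h5 := norm_nonneg ((S y).fst - ((1 + δ : ℝ) : 𝕂)⁻¹ • T y)
    have h6 : (1 - δ) * (δ * ‖y‖) ≤ (1 + δ)⁻¹ * (δ * ‖y‖) := by gcongr
    have h7 : δ / 4 * ‖y‖ ≤ (1 - δ) * (δ * ‖y‖) - δ / 4 * ‖y‖ := by
      have : 0 ≤ δ * ‖y‖ := by positivity
      nlinarith
    rw [h2] at h3
    linarith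
  have hSA : IsASE 𝕂 S := hSR.isASE_of_bddBelow (δ / 4) (by positivity) hbelow
  -- the norm of the second component is small
  have hsnd : ∀ y : X, ‖(S y).snd‖ ≤ 5 / 4 * δ * ‖y‖ := by
    intro y
    have h1 := hdiff y
    have h2 : ‖((1 + δ : ℝ) : 𝕂)⁻¹ • (δ : 𝕂) • y‖ = (1 + δ)⁻¹ * (δ * ‖y‖) := by
      rw [norm_smul, norm_smul, norm_inv_add δ hδ, RCLike.norm_ofReal, abs_of_pos hδ]
    have h3 : ‖(S y).snd‖ ≤ ‖((1 + δ : ℝ) : 𝕂)⁻¹ • (δ : 𝕂) • y‖ +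
        ‖(S y).snd - ((1 + δ : ℝ) : 𝕂)⁻¹ • (δ : 𝕂) • y‖ := by
      have := norm_add_le (((1 + δ : ℝ) : 𝕂)⁻¹ • (δ : 𝕂) • y)
        ((S y).snd - ((1 + δ : ℝ) : 𝕂)⁻¹ • (δ : 𝕂) • y)
      rwa [add_sub_cancel] at this
    have h5 := norm_nonneg ((S y).fst - ((1 + δ : ℝ) : 𝕂)⁻¹ • T y)
    have h6 : (1 + δ)⁻¹ * (δ * ‖y‖) ≤ 1 * (δ * ‖y‖) := by gcongr
    rw [h2] at h3
    linarith
  have hz₀ : 0 < ‖(S x₀).fst‖ := by
    have h1 := hsnd x₀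
    rw [WithLp.prod_norm_eq_of_L1] at hSx₀
    rw [hx₀] at h1
    linarith
  obtain ⟨φ, hφ, hφx⟩ := exists_dual_vector'' 𝕂 (S x₀).snd
  -- the operator `R`
  set v : Z := ((‖(S x₀).fst‖ : 𝕂)⁻¹) • (S x₀).fst with hv
  have hvn : ‖v‖ = 1 := by
    rw [hv, norm_smul, norm_inv, RCLike.norm_ofReal, abs_norm]
    field_simp
  set R : WithLp 1 (Z × X) →L[𝕂] Z :=
    WithLp.fstL 1 𝕂 Z X + (φ.comp (WithLp.sndL 1 𝕂 Z X)).smulRight v with hR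
  have hRapp : ∀ w : WithLp 1 (Z × X), R w = w.fst + φ w.snd • v := fun w => rfl
  have hRle : ∀ w : WithLp 1 (Z × X), ‖R w‖ ≤ ‖w‖ := by
    intro w
    rw [hRapp, WithLp.prod_norm_eq_of_L1]
    refine (norm_add_le _ _).trans ?_
    rw [norm_smul, hvn, mul_one]
    have := (φ.le_opNorm w.snd)
    have h2 : ‖φ‖ * ‖w.snd‖ ≤ 1 * ‖w.snd‖ := by gcongr
    linarith
  have hRx₀ : ‖R (S x₀)‖ = 1 := by
    have h1 : R (S x₀) = ((1 : 𝕂) + (‖(S x₀).snd‖ : 𝕂) * (‖(S x₀).fst‖ : 𝕂)⁻¹) • (S x₀).fst := by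
      rw [hRapp, hφx, hv, smul_smul, add_smul, one_smul]
    have h2 : ((1 : 𝕂) + (‖(S x₀).snd‖ : 𝕂) * (‖(S x₀).fst‖ : 𝕂)⁻¹) =
        ((1 + ‖(S x₀).snd‖ * ‖(S x₀).fst‖⁻¹ : ℝ) : 𝕂) := by push_cast; rfl
    rw [h1, h2, norm_smul, RCLike.norm_ofReal, abs_of_nonneg (by positivity)]
    rw [WithLp.prod_norm_eq_of_L1] at hSx₀
    field_simp
    linarith
  have hRSle : ‖R.comp S‖ ≤ 1 := by
    apply ContinuousLinearMap.opNorm_le_bound _ zero_le_one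
    intro y
    have h1 := hRle (S y)
    have h2 := S.le_opNorm y
    rw [hS] at h2
    exact h1.trans h2
  have hRSn : ‖R.comp S‖ = 1 := by
    apply le_antisymm hRSle
    have := (R.comp S).le_opNorm x₀
    rw [hx₀, mul_one] at this
    have h2 : ‖(R.comp S) x₀‖ = 1 := hRx₀
    linarith
  refine ⟨R.comp S, x₀, ?_, hx₀, hRSn, hRx₀, ?_, by linarith⟩
  · -- ASE
    obtain ⟨y₀, hy₀, hseq⟩ := hSA
    refine ⟨y₀, hy₀, fun z hz hlim => ?_⟩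
    apply hseq z hz
    rw [hRSn] at hlim
    rw [hS]
    refine tendsto_of_tendsto_of_tendsto_of_le_of_le hlim tendsto_const_nhds ?_ ?_
    · intro n
      exact hRle (S (z n))
    · intro n
      have h2 := S.le_opNorm (z n)
      rw [hS, one_mul] at h2
      exact h2.trans (hz n)
  · -- norm estimate
    have h1 : ‖R.comp S - T‖ ≤ 4 * δ := by
      apply ContinuousLinearMap.opNorm_le_bound _ (by positivity)
      intro y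
      have h2 : (R.comp S - T) y = ((S y).fst - ((1 + δ : ℝ) : 𝕂)⁻¹ • T y) +
          (((1 + δ : ℝ) : 𝕂)⁻¹ • T y - T y) + φ (S y).snd • v := by
        show R (S y) - T y = _
        rw [hRapp]
        abel
      have h3 : ‖((1 + δ : ℝ) : 𝕂)⁻¹ • T y - T y‖ ≤ δ * ‖y‖ := by
        have e1 : ((1 + δ : ℝ) : 𝕂)⁻¹ • T y - T y = (((1 + δ)⁻¹ - 1 : ℝ) : 𝕂) • T y := by
          push_cast
          rw [sub_smul, one_smul]
        rw [e1, norm_smul, RCLike.norm_ofReal, abs_sub_comm, abs_of_nonneg (by linarith)]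
        have e2 := T.le_opNorm y
        rw [hT, one_mul] at e2
        have e3 : 1 - (1 + δ)⁻¹ ≤ δ := by linarith
        have e4 : 0 ≤ 1 - (1 + δ)⁻¹ := by linarith
        exact mul_le_mul e3 e2 (norm_nonneg _) hδ.le
      have h4 : ‖φ (S y).snd • v‖ ≤ 5 / 4 * δ * ‖y‖ := by
        rw [norm_smul, hvn, mul_one]
        refine (φ.le_opNorm _).trans ?_
        calc ‖φ‖ * ‖(S y).snd‖ ≤ 1 * ‖(S y).snd‖ := by gcongr
          _ = ‖(S y).snd‖ := one_mul _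
          _ ≤ _ := hsnd y
      have h5 := hdiff y
      have h6 := norm_nonneg ((S y).snd - ((1 + δ : ℝ) : 𝕂)⁻¹ • (δ : 𝕂) • y)
      rw [h2]
      have h7 := norm_add₃_le (a := (S y).fst - ((1 + δ : ℝ) : 𝕂)⁻¹ • T y)
        (b := ((1 + δ : ℝ) : 𝕂)⁻¹ • T y - T y) (c := φ (S y).snd • v)
      have h8 : 0 ≤ δ * ‖y‖ := by positivity
      nlinarith
    linarith

end Pool.Agent.Results.MP_2e9c83_an.UniversalRSEisASE
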